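import Pool.Agent.Lib.MP_7946c7_pr.F.Final

/-!
# MP_7946c7_pr, Q1: the diameter of the random spanning tree in random environment on `K_n`

The three regimes of the conjecture of Makowiec, Salvi and Sun. The model is defined in
`Pool/Agent/Lib/MP_7946c7_pr/F/FDefs.lean` (`KE`, `envLaw`, `gibbs`, `quenched`, `averaged`,
`DiamExponent`).
-/

open Filter Topology

namespace Pool.Agent.Results.MP_7946c7_pr.DiameterExponents

open RST.F in
/-- Under the averaged law, with probability tending to one, the diameter of the random spanning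
tree in random environment on `K_n` is
`n^{1/2+o(1)}` if `β_n ≤ C n`, `n^{1/2-g/2+o(1)}` if `β_n = n^{1+g+o(1)}`, `0 < g < 1/3`, and
`n^{1/3+o(1)}` if `β_n ≥ C n^{4/3}`. -/
theorem result :
    (∀ (C : ℝ) (β : ℕ → ℝ), 0 < C → (∀ n, 0 ≤ β n) → (∀ᶠ n : ℕ in atTop, β n ≤ C * n) →
      DiamExponent β (1 / 2)) ∧
    (∀ (g : ℝ) (β : ℕ → ℝ), 0 < g → g < 1 / 3 → (∀ n, 0 ≤ β n) →
      Tendsto (fun n : ℕ => Real.log (β n) / Real.log n) atTop (𝓝 (1 + g)) →
      DiamExponent β (1 / 2 - g / 2)) ∧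
    (∀ (C : ℝ) (β : ℕ → ℝ), 0 < C → (∀ᶠ n : ℕ in atTop, C * (n : ℝ) ^ (4 / 3 : ℝ) ≤ β n) →
      DiamExponent β (1 / 3)) :=
  main

end Pool.Agent.Results.MP_7946c7_pr.DiameterExponents
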